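import Mathlib

namespace Pool.Agent.Results.MP_19fe04_lc.Example
open Set Equiv

/-- a Steiner `k`-system -/
def Steiner {X : Type} (k : ℕ) (B : Set (Set X)) : Prop :=
  (∀ b ∈ B, (k + 1 : ℕ∞) ≤ b.encard) ∧ B.Nontrivial ∧
    ∀ a : Fin k ↪ X, ∃! b, b ∈ B ∧ range a ⊆ b

/-- `g` maps the family `B` onto itself -/
def Pres {X : Type} (g : Perm X) (B : Set (Set X)) : Prop := (fun b => g '' b) '' B = B

variable {F V : Type} [Field F] [AddCommGroup V] [Module F V]

def ln (F : Type) [Field F] [Module F V] (x y : V) : Set V := range fun t : F => x + t • (y - x)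

def LB (F V : Type) [Field F] [AddCommGroup V] [Module F V] : Set (Set V) :=
  {L | ∃ x y, x ≠ y ∧ L = ln F x y}

def PB (V : Type) [AddCommGroup V] : Set (Set V) :=
  {L | ∃ x y z : V, x ≠ y ∧ x ≠ z ∧ y ≠ z ∧ L = {x, y, z, x + y + z}}

theorem l0 (x y : V) : x ∈ ln F x y := ⟨0, by simp⟩
theorem l1 (x y : V) : y ∈ ln F x y := ⟨1, by simp⟩

theorem ln_eq {L : Set V} (hL : L ∈ LB F V) {x y : V} (h : x ≠ y) (hx : x ∈ L) (hy : y ∈ L) :
    L = ln F x y := by
  obtain ⟨u, v, -, rfl⟩ := hL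
  obtain ⟨s, rfl⟩ := hx
  obtain ⟨t, rfl⟩ := hy
  have : t - s ≠ 0 := fun e => h (by rw [sub_eq_zero.1 e])
  ext w
  constructor <;> rintro ⟨r, rfl⟩
  · refine ⟨(r - s) / (t - s), ?_⟩
    have e : (r - s) / (t - s) * (t - s) = r - s := div_mul_cancel₀ _ this
    dsimp only
    linear_combination (norm := module) e • (v - u)
  · exact ⟨s + r * (t - s), by dsimp only; module⟩

theorem pres_ln {g : Perm V} (hg : Pres g (LB F V)) {x y : V} (h : x ≠ y) :
    g '' ln F x y = ln F (g x) (g y) :=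
  ln_eq (hg.le ⟨_, ⟨x, y, h, rfl⟩, rfl⟩) (g.injective.ne h) ⟨_, l0 x y, rfl⟩ ⟨_, l1 x y, rfl⟩

section
variable {o : F} (h2 : (2 : F) = 0) (ho : o ^ 2 + o + 1 = 0)
  (hF : ∀ t : F, t = 0 ∨ t = 1 ∨ t = o ∨ t = o + 1)
include h2

theorem two (x : V) : x + x = 0 := by linear_combination (norm := module) h2 • x

include ho hF

theorem col {x y z : V} (h1 : x ≠ z) (h3 : y ≠ z) (h : z ∈ ln F x y) : x + y + z ∈ ln F x y := by
  obtain ⟨t, rfl⟩ := h
  exact ⟨t + 1, by dsimp only; linear_combination (norm := module) (-h2) • x⟩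

theorem col' {x y z w : V} (h1 : x ≠ z) (h3 : y ≠ z) (h : z ∈ ln F x y) (h' : w ∈ ln F x y)
    (a : w ≠ x) (b : w ≠ y) (c : w ≠ z) : w = x + y + z := by
  obtain ⟨t, rfl⟩ := h
  obtain ⟨s, rfl⟩ := h'
  dsimp only at *
  rcases hF t with rfl | rfl | rfl | rfl <;> try (simp at h1 h3; done)
  all_goals rcases hF s with rfl | rfl | rfl | rfl <;> try (simp at a b c; done)
  · linear_combination (norm := module) (-h2) • x
  · linear_combination (norm := module) (-h2) • y

theorem tri {x y z p q r : V} (hxy : x ≠ y) (h : z ∉ ln F x y) (hp : p ∈ ln F x y)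
    (hq : q ∈ ln F x z) (hr : r ∈ ln F y z) (p1 : p ≠ x) (p2 : p ≠ y)
    (r1 : r ≠ y) (r2 : r ≠ z) (hq' : q ∈ ln F p r) : p + r + q = x + y + z := by
  obtain ⟨s, rfl⟩ := hp
  obtain ⟨u, rfl⟩ := hq
  obtain ⟨t, rfl⟩ := hr
  obtain ⟨v, hv⟩ := hq'
  dsimp only at *
  have e : (s + v * (1 - t - s)) • (y - x) + (v * t - u) • (z - x) = 0 := by
    linear_combination (norm := module) hv
  have e1 : v * t - u = 0 := by
    by_contra hne
    refine h ⟨-(s + v * (1 - t - s)) / (v * t - u), smul_right_injective V hne ?_⟩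
    have e2 : -(s + v * (1 - t - s)) / (v * t - u) * (v * t - u) = -(s + v * (1 - t - s)) :=
      div_mul_cancel₀ _ hne
    dsimp only
    linear_combination (norm := module) e2 • (y - x) - e
  rw [e1, zero_smul, add_zero, smul_eq_zero] at e
  have e2 := e.resolve_right (sub_ne_zero.2 hxy.symm)
  have s0 : s ≠ 0 := fun h => p1 (by simp [h])
  have a1 : s = o ∨ s = o + 1 := by
    rcases hF s with h | h | h | h
    exacts [(s0 h).elim, (p2 (by simp [h])).elim, .inl h, .inr h]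
  have a2 : t = o ∨ t = o + 1 := by
    rcases hF t with h | h | h | h
    exacts [(r1 (by simp [h])).elim, (r2 (by simp [h])).elim, .inl h, .inr h]
  have a3 : s = t := by
    rcases a1 with a1 | a1 <;> rcases a2 with a2 | a2
    · rw [a1, a2]
    · exact (s0 (by linear_combination e2 + v * a1 + v * a2 + v * o * h2)).elim
    · exact (s0 (by linear_combination e2 + v * a1 + v * a2 + v * o * h2)).elim
    · rw [a1, a2]
  subst a3
  have a4 : s ^ 2 + s + 1 = 0 := by
    rcases a1 with rfl | rfl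
    · exact ho
    · linear_combination ho + (o + 1) * h2
  have a5 : s + u = 1 := by
    linear_combination a4 - e1 - s * e2 + (v * s - v * s ^ 2 - 1) * h2
  linear_combination (norm := module) a5 • (z - x)

theorem ne3 {x y z : V} (h : x ≠ y) : x + y + z ≠ z := fun e =>
  h (by linear_combination (norm := module) e - two h2 y)

theorem add1 {g : Perm V} (hg : Pres g (LB F V)) {x y z : V} (h : x ≠ y) (h1 : x ≠ z) (h3 : y ≠ z)
    (hz : z ∈ ln F x y) : g (x + y + z) = g x + g y + g z :=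
  col' h2 ho hF (g.injective.ne h1) (g.injective.ne h3) (pres_ln hg h ▸ ⟨_, hz, rfl⟩)
    (pres_ln hg h ▸ ⟨_, col h2 ho hF h1 h3 hz, rfl⟩)
    (g.injective.ne (by rw [show x + y + z = y + z + x by abel]; exact ne3 h2 ho hF h3))
    (g.injective.ne (by rw [show x + y + z = x + z + y by abel]; exact ne3 h2 ho hF h1))
    (g.injective.ne (ne3 h2 ho hF h))

theorem add2 {g : Perm V} (hg : Pres g (LB F V)) {x y z : V} (h : x ≠ y) (h1 : x ≠ z)
    (h3 : y ≠ z) : g (x + y + z) = g x + g y + g z := by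
  by_cases hz : z ∈ ln F x y
  · exact add1 h2 ho hF hg h h1 h3 hz
  have o0 : o ≠ 0 := fun e => by simp [e] at ho
  have o1 : o - 1 ≠ 0 := fun e => one_ne_zero (α := F) (by linear_combination ho - (o + 2) * e - h2)
  have n0 : ∀ {x y : V}, x ≠ y → x + o • (y - x) ≠ x := fun h e =>
    smul_ne_zero o0 (sub_ne_zero.2 h.symm) (by simpa using e)
  have n1 : ∀ {x y : V}, x ≠ y → x + o • (y - x) ≠ y := fun h e =>
    smul_ne_zero o1 (sub_ne_zero.2 h.symm) (by linear_combination (norm := module) e)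
  have a : x + o • (y - x) ≠ y + o • (z - y) := fun e => hz (by
    rw [ln_eq (F := F) ⟨x, y, h, rfl⟩ (n1 h).symm (l1 x y) ⟨o, rfl⟩, e,
      ← ln_eq (F := F) ⟨y, z, h3, rfl⟩ (n0 h3).symm (l0 y z) ⟨o, rfl⟩]
    exact l1 y z)
  have b : x + (o + 1) • (z - x) ∈ ln F (x + o • (y - x)) (y + o • (z - y)) := ⟨o, by
    dsimp only
    linear_combination (norm := module) ho • (x + z) + h2 • (-(o + 1) • z - o • x + (o - o ^ 2) • y)⟩
  obtain ⟨d1, d2⟩ : x + o • (y - x) ≠ x + (o + 1) • (z - x) ∧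
      y + o • (z - y) ≠ x + (o + 1) • (z - x) := by
    have e : x + o • (y - x) + o • (y + o • (z - y) - (x + o • (y - x))) = x + (o + 1) • (z - x) := by
      linear_combination (norm := module) ho • (x + z) + h2 • (-(o + 1) • z - o • x + (o - o ^ 2) • y)
    exact ⟨e ▸ (n0 a).symm, e ▸ (n1 a).symm⟩
  rw [show x + y + z = (x + o • (y - x)) + (y + o • (z - y)) + (x + (o + 1) • (z - x)) by
    linear_combination (norm := module) h2 • (o • x - o • z), add1 h2 ho hF hg a d1 d2 b]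
  refine tri h2 ho hF (g.injective.ne h) (fun e => ?_) (pres_ln hg h ▸ ⟨_, ⟨o, rfl⟩, rfl⟩)
    (pres_ln hg h1 ▸ ⟨_, ⟨o + 1, rfl⟩, rfl⟩) (pres_ln hg h3 ▸ ⟨_, ⟨o, rfl⟩, rfl⟩)
    (g.injective.ne (n0 h)) (g.injective.ne (n1 h)) (g.injective.ne (n0 h3))
    (g.injective.ne (n1 h3)) (pres_ln hg a ▸ ⟨_, b, rfl⟩)
  rw [← pres_ln hg h] at e
  obtain ⟨w, hw, e⟩ := e
  exact hz (g.injective e ▸ hw)

theorem pb {x y z : V} {L : Set V} (hL : L ∈ PB V) (h : x ≠ y) (h1 : x ≠ z) (h3 : y ≠ z)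
    (hx : x ∈ L) (hy : y ∈ L) (hz : z ∈ L) : L = {x, y, z, x + y + z} := by
  obtain ⟨a, b, c, -, -, -, rfl⟩ := hL
  have t := two (F := F) (V := V) h2
  have k : ∀ u v : V, u + (u + v) = v := fun u v => by rw [← add_assoc, t, zero_add]
  rcases hx with rfl | rfl | rfl | rfl <;> rcases hy with rfl | rfl | rfl | rfl <;>
    rcases hz with rfl | rfl | rfl | rfl <;> (try contradiction) <;> ext w <;>
    simp only [mem_insert_iff, mem_singleton_iff, add_comm, add_left_comm, add_assoc, t, k,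
      add_zero] <;> tauto

end

theorem result : ∃ (k l : ℕ) (X : Type) (_ : Countable X) (_ : Infinite X) (B C : Set (Set X)),
    2 ≤ k ∧ 2 ≤ l ∧ k ≠ l ∧ Steiner k B ∧
    (∀ a b : Fin k ↪ X, ∃ g : Perm X, Pres g B ∧ ∀ j, g (a j) = b j) ∧
    Steiner l C ∧ ∀ g : Perm X, Pres g B → Pres g C := by
  let F := GaloisField 2 2
  haveI : Fintype F := Fintype.ofFinite F
  have c4 : Fintype.card F = 4 := by rw [← Nat.card_eq_fintype_card, GaloisField.card 2 2 (by omega)]; rfl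
  have h2 : (2 : F) = 0 := CharTwo.two_eq_zero
  classical
  obtain ⟨o, -, ho⟩ := Finset.exists_mem_notMem_of_card_lt_card (s := ({0, 1} : Finset F))
    (t := Finset.univ) (Finset.card_le_two.trans_lt (by simp [c4]))
  simp only [Finset.mem_insert, Finset.mem_singleton, not_or] at ho
  have o2 : o + 1 ≠ 0 := fun e => ho.2 (by linear_combination e - h2)
  have c5 : ({0, 1, o, o + 1} : Finset F).card = 4 := by
    rw [Finset.card_eq_four]
    exact ⟨0, 1, o, o + 1, by simp, Ne.symm ho.1, o2.symm, Ne.symm ho.2, by simpa using ho.1,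
      by simp, rfl⟩
  have hF : ∀ t : F, t = 0 ∨ t = 1 ∨ t = o ∨ t = o + 1 := fun t => by
    simpa using (Finset.eq_univ_of_card _ (c5.trans c4.symm)).ge (Finset.mem_univ t)
  have h3 : o ^ 2 + o + 1 = 0 := by
    have := FiniteField.pow_card o
    rw [c4] at this
    exact mul_left_cancel₀ (mul_ne_zero ho.1 (sub_ne_zero.2 ho.2)) (by linear_combination this)
  let e : ℕ → (ℕ →₀ F) := fun n => Finsupp.single n 1
  have e1 : Function.Injective e := Finsupp.single_left_injective one_ne_zero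
  have e0 : ∀ n, 0 ≠ e n := fun n => (Finsupp.single_ne_zero.2 one_ne_zero).symm
  have ne : ∀ {k} (a : Fin k ↪ (ℕ →₀ F)) i j, i ≠ j → a i ≠ a j := fun a _ _ h => a.injective.ne h
  refine ⟨2, 3, (ℕ →₀ F), inferInstance, inferInstance, LB F (ℕ →₀ F), PB (ℕ →₀ F), le_rfl, by omega, by omega,
    ⟨?_, ⟨_, ⟨0, e 0, e0 0, rfl⟩, _, ⟨0, e 1, e0 1, rfl⟩, fun h => ?_⟩, fun a =>
      ⟨ln F (a 0) (a 1), ⟨⟨_, _, ne a 0 1 (by decide), rfl⟩, ?_⟩, fun L h =>
        ln_eq h.1 (ne a 0 1 (by decide)) (h.2 ⟨0, rfl⟩) (h.2 ⟨1, rfl⟩)⟩⟩, fun a b => ?_,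
    ⟨?_, ⟨_, ⟨0, e 0, e 1, e0 0, e0 1, e1.ne (by omega), rfl⟩, _,
      ⟨0, e 0, e 2, e0 0, e0 2, e1.ne (by omega), rfl⟩, fun h => ?_⟩, fun a =>
      ⟨{a 0, a 1, a 2, a 0 + a 1 + a 2}, ⟨⟨_, _, _, ne a 0 1 (by decide), ne a 0 2 (by decide),
        ne a 1 2 (by decide), rfl⟩, ?_⟩, fun L h => pb h2 h3 hF h.1 (ne a 0 1 (by decide))
          (ne a 0 2 (by decide)) (ne a 1 2 (by decide)) (h.2 ⟨0, rfl⟩) (h.2 ⟨1, rfl⟩)
          (h.2 ⟨2, rfl⟩)⟩⟩, fun g hg => ?_⟩
  · rintro _ ⟨x, y, h, rfl⟩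
    rw [ln, ← image_univ, Function.Injective.encard_image fun s t e =>
      smul_left_injective F (sub_ne_zero.2 h.symm) (add_left_cancel e), encard_univ,
      ENat.card_eq_coe_fintype_card, c4]
    norm_num
  · obtain ⟨t, ht⟩ := h.le (l1 0 (e 0))
    simpa [e] using DFunLike.congr_fun ht 0
  · rintro _ ⟨j, rfl⟩
    fin_cases j
    exacts [l0 _ _, l1 _ _]
  · have a0 := sub_ne_zero.2 (ne a 1 0 (by decide))
    have b0 := sub_ne_zero.2 (ne b 1 0 (by decide))
    obtain ⟨T, hT⟩ := Submodule.exists_linearEquiv_restrict_eq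
      ((LinearEquiv.toSpanNonzeroSingleton F (ℕ →₀ F) _ a0).symm.trans
        (LinearEquiv.toSpanNonzeroSingleton F (ℕ →₀ F) _ b0))
    have t1 : T (a 1 - a 0) = b 1 - b 0 := by
      have := hT (LinearEquiv.toSpanNonzeroSingleton F (ℕ →₀ F) _ a0 1)
      rw [LinearEquiv.trans_apply, LinearEquiv.symm_apply_apply] at this
      simpa using this.symm
    let g : Perm (ℕ →₀ F) := T.toEquiv.trans (Equiv.addRight (b 0 - T (a 0)))
    have g1 : ∀ x y, g '' ln F x y = ln F (g x) (g y) := fun x y => by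
      rw [ln, ← range_comp]
      congr 1
      funext t
      simp [g, add_right_comm]
    refine ⟨g, subset_antisymm ?_ ?_, fun j => ?_⟩
    · rintro _ ⟨_, ⟨x, y, h, rfl⟩, rfl⟩
      exact ⟨_, _, g.injective.ne h, g1 x y⟩
    · rintro _ ⟨x, y, h, rfl⟩
      exact ⟨_, ⟨_, _, g.symm.injective.ne h, rfl⟩, (g1 _ _).trans (by simp)⟩
    · rw [map_sub] at t1
      fin_cases j
      · simp [g]
      · simp only [g, Equiv.trans_apply, LinearEquiv.coe_toEquiv, coe_addRight, Fin.mk_one]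
        linear_combination (norm := module) t1
  · rintro _ ⟨x, y, z, a, b, c, rfl⟩
    have n1 := ne3 h2 h3 hF (z := z) a
    have n2 := ne3 h2 h3 hF (z := y) b
    have n3 := ne3 h2 h3 hF (z := x) c
    rw [show x + z + y = x + y + z by abel] at n2
    rw [show y + z + x = x + y + z by abel] at n3
    rw [encard_insert_of_notMem (by simp [a, b, n3.symm]),
      encard_insert_of_notMem (by simp [c, n2.symm]), encard_pair n1.symm]
    norm_num
  · have : e 1 ∈ ({0, e 0, e 2, 0 + e 0 + e 2} : Set (ℕ →₀ F)) := h ▸ by simp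
    rcases this with h | h | h | h <;> simpa [e] using DFunLike.congr_fun h 1
  · rintro _ ⟨j, rfl⟩
    fin_cases j <;> simp
  · refine subset_antisymm ?_ ?_
    · rintro _ ⟨_, ⟨x, y, z, a, b, c, rfl⟩, rfl⟩
      exact ⟨_, _, _, g.injective.ne a, g.injective.ne b, g.injective.ne c, by
        simp [image_insert_eq, add2 h2 h3 hF hg a b c]⟩
    · rintro _ ⟨x, y, z, a, b, c, rfl⟩
      have a := g.symm.injective.ne a
      have b := g.symm.injective.ne b
      have c := g.symm.injective.ne c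
      exact ⟨_, ⟨_, _, _, a, b, c, rfl⟩, by simp [image_insert_eq, add2 h2 h3 hF hg a b c]⟩

end Pool.Agent.Results.MP_19fe04_lc.Example
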